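import Mathlib

set_option linter.all false

namespace Pool.Agent.H51.Cre

open Polynomial

noncomputable section

theorem ex_cop {R : Type*} [EuclideanDomain R] (c s : R) (hc : c ≠ 0) :
    ∃ g c' s' : R, g ≠ 0 ∧ IsCoprime c' s' ∧ c = g * c' ∧ s = g * s' := by
  classical
  have h0 : EuclideanDomain.gcd c s ≠ 0 := fun h0 => hc (EuclideanDomain.gcd_eq_zero_iff.mp h0).1
  obtain ⟨c', hc'⟩ := EuclideanDomain.gcd_dvd_left c s
  obtain ⟨s', hs'⟩ := EuclideanDomain.gcd_dvd_right c s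
  refine ⟨EuclideanDomain.gcd c s, c', s', h0, ?_, hc', hs'⟩
  refine ⟨EuclideanDomain.gcdA c s, EuclideanDomain.gcdB c s, ?_⟩
  have h1 := EuclideanDomain.gcd_eq_gcd_ab c s
  generalize EuclideanDomain.gcdA c s = A at *
  generalize EuclideanDomain.gcdB c s = B at *
  generalize EuclideanDomain.gcd c s = g at *
  apply mul_left_cancel₀ h0
  rw [mul_one]
  conv_rhs => rw [h1]
  rw [hc', hs']
  ring

theorem quad_coeff2 {R : Type*} [CommRing R] (A B D : R) :
    (C A * X ^ 2 + C B * X + C D : R[X]).coeff 2 = A := by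
  simp [coeff_X, coeff_C]
theorem quad_coeff1 {R : Type*} [CommRing R] (A B D : R) :
    (C A * X ^ 2 + C B * X + C D : R[X]).coeff 1 = B := by
  simp [coeff_X, coeff_C, coeff_X_pow]
theorem quad_coeff0 {R : Type*} [CommRing R] (A B D : R) :
    (C A * X ^ 2 + C B * X + C D : R[X]).coeff 0 = D := by
  simp [coeff_X, coeff_C]

/-- squares and a squarefree factor. -/
theorem dvd_of_sq {G c D s : ℂ[X]} (hG : Squarefree G) (hc : c ≠ 0)
    (h : c ^ 2 * D = s ^ 2 * G) : ∃ u : ℂ[X], D = u ^ 2 * G := by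
  obtain ⟨g, c', s', hg, hcop, hc', hs'⟩ := ex_cop c s hc
  have h1 : c' ^ 2 * D = s' ^ 2 * G := by
    have h2 : g ^ 2 * (c' ^ 2 * D) = g ^ 2 * (s' ^ 2 * G) := by
      rw [hc', hs'] at h
      linear_combination h
    exact mul_left_cancel₀ (pow_ne_zero 2 hg) h2
  have h3 : c' ^ 2 ∣ G := by
    have h4 : IsCoprime (c' ^ 2) (s' ^ 2) := hcop.pow
    exact h4.dvd_of_dvd_mul_left ⟨D, h1.symm⟩
  have h5 : IsUnit c' := hG c' (by rw [← sq]; exact h3)
  obtain ⟨e, he⟩ := h5.exists_right_inv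
  refine ⟨s' * e, ?_⟩
  have h6 : c' ^ 2 * e ^ 2 = 1 := by rw [← mul_pow, he, one_pow]
  calc D = (c' ^ 2 * e ^ 2) * D := by rw [h6, one_mul]
    _ = (c' ^ 2 * D) * e ^ 2 := by ring
    _ = (s' * e) ^ 2 * G := by rw [h1]; ring

theorem swap_coeff (p : ℂ[X][X]) (i j : ℕ) :
    ((Bivariate.swap p).coeff i).coeff j = (p.coeff j).coeff i := by
  induction p using Polynomial.induction_on' with
  | add p q hp hq => simp [map_add, hp, hq]
  | monomial n f =>
    induction f using Polynomial.induction_on' with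
    | add p q hp hq => simp only [map_add, coeff_add, hp, hq]
    | monomial m r =>
      rw [Bivariate.swap_monomial_monomial]
      by_cases h1 : m = i <;> by_cases h2 : n = j <;> simp [coeff_monomial, h1, h2]

/-- factors of a bivariate polynomial have small degree in the inner variable. -/
theorem coeff_natDegree_le {P Q : ℂ[X][X]} {d : ℕ} (hP : P ≠ 0)
    (hd : (Bivariate.swap P).natDegree ≤ d) (h : Q ∣ P) (i : ℕ) : (Q.coeff i).natDegree ≤ d := by
  obtain ⟨R, rfl⟩ := h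
  have hQ : Bivariate.swap Q ≠ 0 := by
    intro h0
    have := (map_eq_zero_iff _ (Bivariate.swap (R := ℂ)).injective).mp h0
    exact hP (by rw [this, zero_mul])
  have hR : Bivariate.swap R ≠ 0 := by
    intro h0
    have := (map_eq_zero_iff _ (Bivariate.swap (R := ℂ)).injective).mp h0
    exact hP (by rw [this, mul_zero])
  rw [map_mul, natDegree_mul hQ hR] at hd
  rw [natDegree_le_iff_coeff_eq_zero]
  intro n hn
  rw [← swap_coeff]
  rw [coeff_eq_zero_of_natDegree_lt (p := Bivariate.swap Q) (by omega)]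
  simp

variable {K : Type*} [Field K] [Algebra ℂ[X] K] [Algebra (RatFunc ℂ) K]
  [IsScalarTower ℂ[X] (RatFunc ℂ) K]

theorem disc_bound {G p q r : ℂ[X]} {w b : K} (hG : Squarefree G) (hb : b ^ 2 = algebraMap ℂ[X] K G)
    (hw : w ∉ (algebraMap (RatFunc ℂ) K).range) (hr : r ≠ 0) (hq : q ≠ 0)
    (hwb : algebraMap ℂ[X] K r * w = algebraMap ℂ[X] K p + algebraMap ℂ[X] K q * b)
    {P : ℂ[X][X]} (hP : P ≠ 0) (hPw : aeval w P = 0) {d : ℕ}
    (hd : (Bivariate.swap P).natDegree ≤ d) : G.natDegree ≤ 2 * d := by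
  classical
  letI : NormalizedGCDMonoid ℂ[X] := Classical.choice inferInstance
  set Φ : ℂ[X][X] := C (r ^ 2) * X ^ 2 + C (-(2 * p * r)) * X + C (p ^ 2 - q ^ 2 * G) with hΦ
  have hr2 : r ^ 2 ≠ 0 := pow_ne_zero 2 hr
  have hΦ2 : Φ.coeff 2 = r ^ 2 := quad_coeff2 _ _ _
  have hΦ1 : Φ.coeff 1 = -(2 * p * r) := quad_coeff1 _ _ _
  have hΦ0 : Φ.coeff 0 = p ^ 2 - q ^ 2 * G := quad_coeff0 _ _ _
  have hΦne : Φ ≠ 0 := by
    intro h0
    rw [h0, coeff_zero] at hΦ2
    exact hr2 hΦ2.symm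
  have hΦdeg : Φ.natDegree = 2 := natDegree_quadratic hr2
  have hΦw : aeval w Φ = 0 := by
    simp only [hΦ, map_add, map_mul, aeval_C, map_pow, aeval_X, map_neg, map_sub, map_ofNat]
    have h1 : algebraMap ℂ[X] K r * w - algebraMap ℂ[X] K p = algebraMap ℂ[X] K q * b := by
      rw [hwb]; ring
    have h2 : (algebraMap ℂ[X] K r * w - algebraMap ℂ[X] K p) ^ 2
        = algebraMap ℂ[X] K q ^ 2 * algebraMap ℂ[X] K G := by
      rw [h1, mul_pow, hb]
    linear_combination h2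
  -- the fraction field
  have hinj : Function.Injective (algebraMap ℂ[X] (RatFunc ℂ)) :=
    FaithfulSMul.algebraMap_injective _ _
  have hΦm : aeval w (Φ.map (algebraMap ℂ[X] (RatFunc ℂ))) = 0 := by
    rw [aeval_map_algebraMap]; exact hΦw
  have hΦmne : Φ.map (algebraMap ℂ[X] (RatFunc ℂ)) ≠ 0 :=
    (Polynomial.map_ne_zero_iff hinj).mpr hΦne
  have hint : IsIntegral (RatFunc ℂ) w := by
    have : IsAlgebraic (RatFunc ℂ) w := ⟨_, hΦmne, hΦm⟩
    exact this.isIntegral
  have hPm : aeval w (P.map (algebraMap ℂ[X] (RatFunc ℂ))) = 0 := by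
    rw [aeval_map_algebraMap]; exact hPw
  have h2le : 2 ≤ (minpoly (RatFunc ℂ) w).natDegree := (minpoly.two_le_natDegree_iff hint).mpr hw
  obtain ⟨c0, hc0⟩ := minpoly.dvd (RatFunc ℂ) w hΦm
  have hc0ne : c0 ≠ 0 := by
    rintro rfl
    rw [mul_zero] at hc0
    exact hΦmne hc0
  have hc0deg : c0.natDegree = 0 := by
    have h1 := natDegree_map_eq_of_injective hinj Φ
    rw [hc0, natDegree_mul (minpoly.ne_zero hint) hc0ne, hΦdeg] at h1
    omega
  have hc0u : IsUnit c0 := by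
    rw [natDegree_eq_zero] at hc0deg
    obtain ⟨x, rfl⟩ := hc0deg
    rw [isUnit_C, isUnit_iff_ne_zero]
    rintro rfl
    exact hc0ne (by simp)
  have hdvd1 : Φ.map (algebraMap ℂ[X] (RatFunc ℂ)) ∣ P.map (algebraMap ℂ[X] (RatFunc ℂ)) := by
    rw [hc0]
    exact (hc0u.mul_right_dvd).mpr (minpoly.dvd _ _ hPm)
  have hprim : Φ.primPart ∣ P := by
    refine (isPrimitive_primPart Φ).dvd_of_fraction_map_dvd_fraction_map (K := RatFunc ℂ) ?_
    refine dvd_trans ?_ hdvd1
    conv_rhs => rw [Φ.eq_C_content_mul_primPart]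
    rw [Polynomial.map_mul]
    exact dvd_mul_left _ _
  have hdeg : ∀ i, (Φ.primPart.coeff i).natDegree ≤ d := fun i => coeff_natDegree_le hP hd hprim i
  have hcne : Φ.content ≠ 0 := by
    intro h0
    rw [content_eq_zero_iff] at h0
    exact hΦne h0
  have hcoef : ∀ i, Φ.content * Φ.primPart.coeff i = Φ.coeff i := by
    intro i
    conv_rhs => rw [Φ.eq_C_content_mul_primPart]
    rw [coeff_C_mul]
  obtain ⟨u, hu⟩ := dvd_of_sq (D := Φ.primPart.coeff 1 ^ 2
      - 4 * Φ.primPart.coeff 2 * Φ.primPart.coeff 0) (s := 2 * r * q) hG hcne (by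
    have e2 := hcoef 2
    have e1 := hcoef 1
    have e0 := hcoef 0
    rw [hΦ2] at e2
    rw [hΦ1] at e1
    rw [hΦ0] at e0
    calc Φ.content ^ 2 * (Φ.primPart.coeff 1 ^ 2 - 4 * Φ.primPart.coeff 2 * Φ.primPart.coeff 0)
        = (Φ.content * Φ.primPart.coeff 1) ^ 2
          - 4 * (Φ.content * Φ.primPart.coeff 2) * (Φ.content * Φ.primPart.coeff 0) := by ring
      _ = (2 * r * q) ^ 2 * G := by rw [e0, e1, e2]; ring)
  have hune : u ≠ 0 := by
    rintro rfl
    have e2 := hcoef 2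
    have e1 := hcoef 1
    have e0 := hcoef 0
    rw [hΦ2] at e2
    rw [hΦ1] at e1
    rw [hΦ0] at e0
    have h1 : (2 * r * q) ^ 2 * G = 0 := by
      have : Φ.content ^ 2 * (Φ.primPart.coeff 1 ^ 2
          - 4 * Φ.primPart.coeff 2 * Φ.primPart.coeff 0) = (2 * r * q) ^ 2 * G := by
        calc Φ.content ^ 2 * (Φ.primPart.coeff 1 ^ 2 - 4 * Φ.primPart.coeff 2 * Φ.primPart.coeff 0)
          = (Φ.content * Φ.primPart.coeff 1) ^ 2
            - 4 * (Φ.content * Φ.primPart.coeff 2) * (Φ.content * Φ.primPart.coeff 0) := by ring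
        _ = (2 * r * q) ^ 2 * G := by rw [e0, e1, e2]; ring
      rw [← this, hu]
      ring
    have h2 : (2 * r * q) ≠ 0 := by
      refine mul_ne_zero (mul_ne_zero two_ne_zero hr) hq
    exact (mul_ne_zero (pow_ne_zero 2 h2) hG.ne_zero) h1
  have hdeg1 : (Φ.primPart.coeff 1 ^ 2
      - 4 * Φ.primPart.coeff 2 * Φ.primPart.coeff 0).natDegree ≤ 2 * d := by
    refine (natDegree_sub_le _ _).trans (max_le ?_ ?_)
    · exact natDegree_pow_le.trans (Nat.mul_le_mul_left 2 (hdeg 1))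
    · refine (natDegree_mul_le).trans ?_
      have h4 : (4 * Φ.primPart.coeff 2 : ℂ[X]).natDegree ≤ d := by
        refine natDegree_mul_le.trans ?_
        have : (4 : ℂ[X]).natDegree = 0 := natDegree_ofNat 4
        rw [this, zero_add]
        exact hdeg 2
      have h0 := hdeg 0
      omega
  rw [hu, natDegree_mul (pow_ne_zero 2 hune) hG.ne_zero] at hdeg1
  omega

end

end Pool.Agent.H51.Cre
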