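import Mathlib

set_option linter.all false

namespace Pool.Agent.H51.Cre

open Polynomial

noncomputable section

theorem aevalAeval_eval₂ {K : Type*} [Field K] [Algebra ℂ K] (w v : K) (g : ℂ[X][X]) :
    aevalAeval w v g = eval₂ (aeval w : ℂ[X] →ₐ[ℂ] K).toRingHom v g := by
  induction g using Polynomial.induction_on' with
  | add p q hp hq => rw [map_add, hp, hq, eval₂_add]
  | monomial n f =>
    rw [← C_mul_X_pow_eq_monomial, map_mul, map_pow, aevalAeval_C, aevalAeval_Y, eval₂_mul,
      eval₂_pow, eval₂_C, eval₂_X]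
    rfl

theorem exists_frac {K : Type*} [Field K] [Algebra ℂ K] {w x : K}
    (hx : x ∈ IntermediateField.adjoin ℂ {w}) :
    ∃ n e : ℂ[X], aeval w e ≠ 0 ∧ aeval w n = x * aeval w e := by
  rw [IntermediateField.mem_adjoin_simple_iff] at hx
  obtain ⟨r, s, h⟩ := hx
  by_cases h0 : aeval w s = 0
  · refine ⟨0, 1, by simp, ?_⟩
    rw [h, h0]; simp
  · refine ⟨r, s, h0, ?_⟩
    rw [h]; field_simp

theorem exists_rel {K : Type*} [Field K] [Algebra ℂ K] {w v a : K} (hw : Transcendental ℂ w)
    {g : ℂ[X][X]} (hg : g ≠ 0) {d : ℕ} (hgd : g.natDegree ≤ d) (hgw : aevalAeval w v g = 0)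
    (ha : a ∈ IntermediateField.adjoin ℂ {w, v}) :
    ∃ P : ℂ[X][X], P ≠ 0 ∧ P.natDegree ≤ d ∧ aevalAeval w a P = 0 := by
  classical
  let E := IntermediateField.adjoin ℂ {w}
  let ψ : ℂ[X] →ₐ[ℂ] E := aeval (IntermediateField.AdjoinSimple.gen ℂ w)
  have hψ : ∀ p, (algebraMap E K) (ψ p) = aeval w p := by
    intro p
    have h1 : aeval (algebraMap E K (IntermediateField.AdjoinSimple.gen ℂ w)) p
      = algebraMap E K (ψ p) := aeval_algebraMap_apply K _ p
    rw [← h1, IntermediateField.AdjoinSimple.algebraMap_gen]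
  have hψinj : Function.Injective ψ.toRingHom := by
    rw [injective_iff_map_eq_zero]
    intro p hp
    have h1 : aeval w p = 0 := by
      rw [← hψ p]
      have : ψ p = 0 := hp
      rw [this, map_zero]
    exact (transcendental_iff.mp hw) p h1
  have hφne : g.map ψ.toRingHom ≠ 0 := (Polynomial.map_ne_zero_iff hψinj).mpr hg
  have hφv : aeval v (g.map ψ.toRingHom) = 0 := by
    rw [aeval_def, eval₂_map, ← hgw, aevalAeval_eval₂]
    congr 1
    ext x
    · simpa using hψ (C x)
    · simpa using hψ X
  have hvint : IsIntegral E v := by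
    have : IsAlgebraic E v := ⟨_, hφne, hφv⟩
    exact this.isIntegral
  have hvdeg : (minpoly E v).natDegree ≤ d := by
    refine (natDegree_le_of_dvd (minpoly.dvd E v hφv) hφne).trans ?_
    exact (natDegree_map_le).trans hgd
  haveI : FiniteDimensional E (IntermediateField.adjoin E {v}) :=
    IntermediateField.adjoin.finiteDimensional hvint
  have hfin : Module.finrank E (IntermediateField.adjoin E {v}) ≤ d := by
    rw [IntermediateField.adjoin.finrank hvint]; exact hvdeg
  have ha' : a ∈ IntermediateField.adjoin E {v} := by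
    rw [← IntermediateField.adjoin_simple_adjoin_simple] at ha
    exact ha
  let a' : IntermediateField.adjoin E {v} := ⟨a, ha'⟩
  have hmdeg : (minpoly E a').natDegree ≤ d := (minpoly.natDegree_le a').trans hfin
  have hmmon : (minpoly E a').Monic := minpoly.monic (Algebra.IsIntegral.isIntegral a')
  have hma : aeval a (minpoly E a') = 0 := by
    have h1 := minpoly.aeval E a'
    have h2 := congrArg (algebraMap (IntermediateField.adjoin E {v}) K) h1
    rw [← aeval_algebraMap_apply, map_zero] at h2
    exact h2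
  generalize minpoly E a' = m at *
  have hfr : ∀ i, ∃ n e : ℂ[X], aeval w e ≠ 0 ∧
      aeval w n = ((m.coeff i : E) : K) * aeval w e := fun i => exists_frac (m.coeff i).2
  choose n e he hne using hfr
  set D : ℂ[X] := ∏ j ∈ Finset.range (d + 1), e j with hD
  let c : ℕ → ℂ[X] := fun i => n i * ∏ j ∈ (Finset.range (d + 1)).erase i, e j
  have hDw : aeval w D ≠ 0 := by
    rw [hD, map_prod]
    exact Finset.prod_ne_zero_iff.mpr fun j _ => he j
  have hc : ∀ i ∈ Finset.range (d + 1), aeval w (c i) = ((m.coeff i : E) : K) * aeval w D := by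
    intro i hi
    show aeval w (n i * ∏ j ∈ (Finset.range (d + 1)).erase i, e j) = _
    rw [map_mul, hne, hD, ← Finset.mul_prod_erase _ _ hi, map_mul, mul_assoc]
  refine ⟨∑ i ∈ Finset.range (d + 1), C (c i) * X ^ i, ?_, ?_, ?_⟩
  · intro h0
    have h1 := congrArg (fun p => p.coeff m.natDegree) h0
    simp only [finset_sum_coeff, coeff_C_mul_X_pow, coeff_zero] at h1
    rw [Finset.sum_ite_eq (Finset.range (d + 1)) m.natDegree c, if_pos (by
      rw [Finset.mem_range]; omega)] at h1
    have h2 := hc m.natDegree (by rw [Finset.mem_range]; omega)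
    rw [h1, map_zero] at h2
    have h3 : m.coeff m.natDegree = 1 := hmmon
    rw [h3] at h2
    apply hDw
    simpa using h2.symm
  · refine natDegree_sum_le_of_forall_le _ _ fun i hi => ?_
    rw [Finset.mem_range] at hi
    exact (natDegree_C_mul_X_pow_le _ _).trans (by omega)
  · rw [map_sum]
    have h1 : ∀ i ∈ Finset.range (d + 1), aevalAeval w a (C (c i) * X ^ i)
        = aeval w D * (((m.coeff i : E) : K) * a ^ i) := by
      intro i hi
      rw [map_mul, map_pow, aevalAeval_C, aevalAeval_Y, hc i hi]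
      ring
    rw [Finset.sum_congr rfl h1, ← Finset.mul_sum]
    have h2 : aeval a m = ∑ i ∈ Finset.range (d + 1), (m.coeff i) • a ^ i :=
      aeval_eq_sum_range' (by omega) a
    rw [hma] at h2
    have h3 : ∑ i ∈ Finset.range (d + 1), (((m.coeff i : E) : K) * a ^ i) = 0 := by
      rw [h2]
      refine Finset.sum_congr rfl fun i _ => ?_
      rw [Algebra.smul_def]; rfl
    rw [h3, mul_zero]

end

end Pool.Agent.H51.Cre
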