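import Pool.Agent.H51.Cre.A
import Pool.Agent.H51.Cre.B

set_option linter.all false

namespace Pool.Agent.H51.Cre

open Polynomial

noncomputable section

theorem aeval_scale {K : Type*} [Field K] [Algebra ℂ K] {m : ℕ} {ι : Type*}
    {p : MvPolynomial ι ℂ} (hp : p.IsHomogeneous m) (c : K) (u : ι → K) :
    MvPolynomial.aeval (fun i => c * u i) p = c ^ m * MvPolynomial.aeval u p := by
  rw [MvPolynomial.aeval_def, MvPolynomial.eval₂_eq, MvPolynomial.aeval_def,
    MvPolynomial.eval₂_eq, Finset.mul_sum]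
  refine Finset.sum_congr rfl fun d hd => ?_
  have h1 : m = ∑ i ∈ d.support, d i := hp.degree_eq_sum_deg_support hd
  simp only [mul_pow]
  rw [Finset.prod_mul_distrib, Finset.prod_pow_eq_pow_sum, ← h1]
  ring

theorem normal (G : ℂ[X]) (p : MvPolynomial (Fin 3) ℂ) :
    ∃ P Q : ℂ[X], ∀ (A : Type) [CommRing A] [Algebra ℂ A] (a b : A), b ^ 2 = aeval a G →
      MvPolynomial.aeval ![1, a, b] p = aeval a P + aeval a Q * b := by
  induction p using MvPolynomial.induction_on with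
  | C c => exact ⟨C c, 0, fun A _ _ a b h => by simp⟩
  | add p q hp hq =>
    obtain ⟨P, Q, h⟩ := hp
    obtain ⟨P', Q', h'⟩ := hq
    refine ⟨P + P', Q + Q', fun A _ _ a b hb => ?_⟩
    rw [map_add, h A a b hb, h' A a b hb, map_add, map_add]
    ring
  | mul_X p i hp =>
    obtain ⟨P, Q, h⟩ := hp
    fin_cases i
    · refine ⟨P, Q, fun A _ _ a b hb => ?_⟩
      rw [map_mul, h A a b hb, MvPolynomial.aeval_X]
      simp
    · refine ⟨P * X, Q * X, fun A _ _ a b hb => ?_⟩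
      rw [map_mul, h A a b hb, MvPolynomial.aeval_X]
      simp
      ring
    · refine ⟨Q * G, P, fun A _ _ a b hb => ?_⟩
      rw [map_mul, h A a b hb, MvPolynomial.aeval_X, map_mul, ← hb]
      simp
      ring

section
variable {K : Type} [Field K] [Algebra ℂ K] [Algebra ℂ[X] K] [Algebra (RatFunc ℂ) K]
  [IsScalarTower ℂ[X] (RatFunc ℂ) K] [IsScalarTower ℂ ℂ[X] K]

theorem aeval_alpha (P : ℂ[X]) : aeval (algebraMap ℂ[X] K X) P = algebraMap ℂ[X] K P := by
  rw [Polynomial.aeval_algebraMap_apply, aeval_X_left_apply]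

theorem ev_zero {G : ℂ[X]} {b : K} (hb : b ^ 2 = algebraMap ℂ[X] K G)
    (hbL : b ∉ (algebraMap (RatFunc ℂ) K).range) {P Q : ℂ[X]}
    (h : algebraMap ℂ[X] K P + algebraMap ℂ[X] K Q * b = 0) : P = 0 ∧ Q = 0 := by
  have hinj : Function.Injective (algebraMap ℂ[X] K) := by
    rw [IsScalarTower.algebraMap_eq ℂ[X] (RatFunc ℂ) K]
    exact (algebraMap (RatFunc ℂ) K).injective.comp (FaithfulSMul.algebraMap_injective ℂ[X] (RatFunc ℂ))
  have hQ : Q = 0 := by
    by_contra hQ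
    apply hbL
    refine ⟨- (algebraMap ℂ[X] (RatFunc ℂ) P / algebraMap ℂ[X] (RatFunc ℂ) Q), ?_⟩
    have hQ' : algebraMap ℂ[X] K Q ≠ 0 := by
      intro h0
      exact hQ ((map_eq_zero_iff _ hinj).mp h0)
    rw [map_neg, map_div₀, ← IsScalarTower.algebraMap_apply, ← IsScalarTower.algebraMap_apply]
    field_simp
    linear_combination -h
  refine ⟨?_, hQ⟩
  rw [hQ, map_zero, zero_mul, add_zero] at h
  exact (map_eq_zero_iff _ hinj).mp h

/-- vanishing in the function field gives pointwise vanishing. -/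
theorem eval_of_ev {G : ℂ[X]} {b : K} (hb : b ^ 2 = algebraMap ℂ[X] K G)
    (hbL : b ∉ (algebraMap (RatFunc ℂ) K).range) {p : MvPolynomial (Fin 3) ℂ}
    (h : MvPolynomial.aeval ![1, algebraMap ℂ[X] K X, b] p = 0) {x y : ℂ}
    (hxy : y ^ 2 = G.eval x) : MvPolynomial.aeval ![1, x, y] p = 0 := by
  obtain ⟨P, Q, hPQ⟩ := normal G p
  rw [hPQ K _ b (by rw [aeval_alpha, hb]), aeval_alpha, aeval_alpha] at h
  obtain ⟨hP, hQ⟩ := ev_zero hb hbL h
  rw [hPQ ℂ x y (by simpa using hxy), hP, hQ]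
  simp

theorem ev_of_eval {G : ℂ[X]} (hG : G ≠ 0) {b : K} (hb : b ^ 2 = algebraMap ℂ[X] K G)
    {p : MvPolynomial (Fin 3) ℂ}
    (h : ∀ x y : ℂ, y ^ 2 = G.eval x → MvPolynomial.aeval ![1, x, y] p = 0) :
    MvPolynomial.aeval ![1, algebraMap ℂ[X] K X, b] p = 0 := by
  obtain ⟨P, Q, hPQ⟩ := normal G p
  have h1 : ∀ x : ℂ, P.eval x = 0 ∧ (Q ^ 2 * G).eval x = 0 := by
    intro x
    obtain ⟨y, hy⟩ : ∃ y : ℂ, y ^ 2 = G.eval x := ⟨(G.eval x) ^ (1 / 2 : ℂ), by
      rw [← Complex.cpow_nat_mul]; simp⟩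
    have e1 := h x y hy
    have e2 := h x (-y) (by rw [neg_sq]; exact hy)
    rw [hPQ ℂ x y (by simpa using hy)] at e1
    rw [hPQ ℂ x (-y) (by rw [neg_sq]; simpa using hy)] at e2
    simp only [coe_aeval_eq_eval] at e1 e2
    constructor
    · linear_combination (e1 + e2) / 2
    · rw [eval_mul, eval_pow, ← hy]
      have e3 : Q.eval x * y = 0 := by linear_combination (e1 - e2) / 2
      calc Q.eval x ^ 2 * y ^ 2 = (Q.eval x * y) ^ 2 := by ring
        _ = 0 := by rw [e3]; ring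
  have hP : P = 0 := Polynomial.funext fun x => by rw [(h1 x).1, eval_zero]
  have hQG : Q ^ 2 * G = 0 := Polynomial.funext fun x => by rw [(h1 x).2, eval_zero]
  have hQ : Q = 0 := by
    rcases mul_eq_zero.mp hQG with h2 | h2
    · exact pow_eq_zero_iff (two_ne_zero) |>.mp h2
    · exact absurd h2 hG
  rw [hPQ K _ b (by rw [aeval_alpha, hb]), hP, hQ]
  simp

theorem transc {w : K} (hw : w ∉ (algebraMap (RatFunc ℂ) K).range)
    (hC : ∀ c : ℂ, algebraMap ℂ K c ∈ (algebraMap (RatFunc ℂ) K).range) :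
    Transcendental ℂ w := by
  intro h
  have h2 : IsIntegral ℂ w := h.isIntegral
  have h3 : (minpoly ℂ w).degree = 1 :=
    IsAlgClosed.degree_eq_one_of_irreducible ℂ (minpoly.irreducible h2)
  have h4 : w ∈ (algebraMap ℂ K).range := minpoly.mem_range_of_degree_eq_one ℂ w h3
  obtain ⟨c, hc⟩ := h4
  exact hw (hc ▸ hC c)

end

end

end Pool.Agent.H51.Cre
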