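import Pool.Agent.H51.Cre.C

set_option linter.all false

namespace Pool.Agent.H51.Cre

open Polynomial

noncomputable section

/-- the dehomogenisation substitution. -/
def sub3 (j i : Fin 3) : Fin 3 → ℂ[X][X] := fun l => if l = j then 1 else if l = i then C X else X

theorem sub3_deg (j i l : Fin 3) : (sub3 j i l).natDegree ≤ 1 := by
  unfold sub3
  split_ifs
  · simp
  · rw [natDegree_C]; exact Nat.zero_le _
  · exact natDegree_X_le

theorem natDegree_sub3 (f : MvPolynomial (Fin 3) ℂ) {n : ℕ} (hf : f.totalDegree ≤ n)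
    (j i : Fin 3) : (MvPolynomial.aeval (sub3 j i) f : ℂ[X][X]).natDegree ≤ n := by
  rw [MvPolynomial.aeval_def, MvPolynomial.eval₂_eq]
  refine natDegree_sum_le_of_forall_le _ _ fun m hm => ?_
  have h1 : (algebraMap ℂ ℂ[X][X] (f.coeff m)).natDegree = 0 := by
    change (C (C (f.coeff m))).natDegree = 0
    exact natDegree_C _
  refine natDegree_mul_le.trans ?_
  rw [h1, zero_add]
  refine (natDegree_prod_le _ _).trans ?_
  refine le_trans (Finset.sum_le_sum (g := fun i => m i) fun l _ => ?_) ?_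
  · refine natDegree_pow_le.trans ?_
    calc m l * (sub3 j i l).natDegree ≤ m l * 1 := Nat.mul_le_mul_left _ (sub3_deg j i l)
      _ = m l := mul_one _
  · exact (MvPolynomial.le_totalDegree hm).trans hf

theorem aev {ι : Type*} (v : ι → ℂ) (p : MvPolynomial ι ℂ) :
    MvPolynomial.aeval v p = MvPolynomial.eval v p := by
  rw [← MvPolynomial.coe_aeval_eq_eval]; rfl

theorem exists_eval_ne {f : MvPolynomial (Fin 3) ℂ} (hf : f ≠ 0) :
    ∃ v : Fin 3 → ℂ, MvPolynomial.eval v f ≠ 0 := by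
  by_contra hcon
  push Not at hcon
  exact hf (MvPolynomial.funext fun v => by rw [hcon v, map_zero])

/-- a nonzero homogeneous polynomial stays nonzero on the chart `x_j = 1`. -/
theorem exists_eval_chart {f : MvPolynomial (Fin 3) ℂ} {n : ℕ} (hf : f ≠ 0)
    (hn : f.IsHomogeneous n) (j : Fin 3) :
    ∃ v : Fin 3 → ℂ, v j = 1 ∧ MvPolynomial.eval v f ≠ 0 := by
  obtain ⟨v, hv⟩ := exists_eval_ne (mul_ne_zero hf (MvPolynomial.X_ne_zero (R := ℂ) j))
  rw [map_mul, MvPolynomial.eval_X] at hv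
  have h1 : MvPolynomial.eval v f ≠ 0 := left_ne_zero_of_mul hv
  have h2 : v j ≠ 0 := right_ne_zero_of_mul hv
  refine ⟨fun i => (v j)⁻¹ * v i, by field_simp, ?_⟩
  have h3 := aeval_scale (K := ℂ) hn (v j)⁻¹ v
  rw [aev, aev] at h3
  rw [h3]
  exact mul_ne_zero (pow_ne_zero _ (inv_ne_zero h2)) h1

theorem sub3_ne {f : MvPolynomial (Fin 3) ℂ} {n : ℕ} (hf : f ≠ 0) (hn : f.IsHomogeneous n)
    {j i k : Fin 3} (hji : i ≠ j) (hk : ∀ l, l = j ∨ l = i ∨ l = k) :
    MvPolynomial.aeval (sub3 j i) f ≠ 0 := by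
  obtain ⟨v, hvj, hv⟩ := exists_eval_chart hf hn j
  intro h0
  apply hv
  have h1 := congrArg (aevalAeval (v i) (v k)) h0
  rw [map_zero] at h1
  have h2 : (aevalAeval (v i) (v k)).comp (MvPolynomial.aeval (sub3 j i))
      = (MvPolynomial.aeval v : MvPolynomial (Fin 3) ℂ →ₐ[ℂ] ℂ) := by
    apply MvPolynomial.algHom_ext
    intro l
    rw [AlgHom.comp_apply, MvPolynomial.aeval_X, MvPolynomial.aeval_X]
    unfold sub3
    split_ifs with h3 h4
    · rw [h3, hvj, map_one]
    · rw [h4, aevalAeval_X]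
    · rw [aevalAeval_Y]
      rcases hk l with h | h | h
      · exact absurd h h3
      · exact absurd h h4
      · rw [h]
  have h3 := DFunLike.congr_fun h2 f
  rw [AlgHom.comp_apply, h1, aev] at h3
  exact h3.symm

theorem core {K : Type} [Field K] [Algebra ℂ K] [Algebra ℂ[X] K] [Algebra (RatFunc ℂ) K]
    [IsScalarTower ℂ[X] (RatFunc ℂ) K] [IsScalarTower ℂ ℂ[X] K]
    {G : ℂ[X]} (hG : Squarefree G) {d : ℕ} (hdG : 2 * d < G.natDegree)
    {b : K} (hb : b ^ 2 = algebraMap ℂ[X] K G)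
    (hbL : b ∉ (algebraMap (RatFunc ℂ) K).range)
    (hspan : ∀ x : K, ∃ y z : RatFunc ℂ, x = algebraMap _ K y + algebraMap _ K z * b)
    {σ τ : Fin 3 → MvPolynomial (Fin 3) ℂ} {e : ℕ} (hτ : ∀ i, (τ i).IsHomogeneous e)
    {h : MvPolynomial (Fin 3) ℂ} (hστ : ∀ i, MvPolynomial.bind₁ σ (τ i) = h * MvPolynomial.X i)
    {f : MvPolynomial (Fin 3) ℂ} {n : ℕ} (hf : f.IsHomogeneous n) (hn : n ≤ d) (hf0 : f ≠ 0)
    {g0 : MvPolynomial (Fin 3) ℂ}
    (hvan : ∀ x y : ℂ, y ^ 2 = G.eval x →
      MvPolynomial.aeval ![1, x, y] (g0 * MvPolynomial.bind₁ σ f) = 0)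
    {x0 y0 : ℂ} (hxy : y0 ^ 2 = G.eval x0) (hg0 : MvPolynomial.aeval ![1, x0, y0] g0 ≠ 0)
    (hh0 : MvPolynomial.aeval ![1, x0, y0] h ≠ 0) {j : Fin 3}
    (hs0 : MvPolynomial.aeval ![1, x0, y0] (σ j) ≠ 0) : False := by
  classical
  set α : K := algebraMap ℂ[X] K X with hα
  set ev : MvPolynomial (Fin 3) ℂ →ₐ[ℂ] K := MvPolynomial.aeval ![1, α, b] with hev
  have hnz : ∀ p : MvPolynomial (Fin 3) ℂ, MvPolynomial.aeval ![1, x0, y0] p ≠ 0 → ev p ≠ 0 :=
    fun p hp h0 => hp (eval_of_ev hb hbL h0 hxy)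
  have hg : ev g0 ≠ 0 := hnz _ hg0
  have hh : ev h ≠ 0 := hnz _ hh0
  have hs : ev (σ j) ≠ 0 := hnz _ hs0
  have hF : ev (MvPolynomial.bind₁ σ f) = 0 := by
    have h1 : ev (g0 * MvPolynomial.bind₁ σ f) = 0 := ev_of_eval hG.ne_zero hb hvan
    rw [map_mul] at h1
    exact (mul_eq_zero.mp h1).resolve_left hg
  -- the coordinates
  set u : Fin 3 → K := fun i => ev (σ i) / ev (σ j) with hu
  have huj : u j = 1 := div_self hs
  have hsu : (fun i => ev (σ i)) = fun i => ev (σ j) * u i := by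
    funext i
    rw [hu]; field_simp
  have hbind : ∀ p : MvPolynomial (Fin 3) ℂ, ev (MvPolynomial.bind₁ σ p)
      = MvPolynomial.aeval (fun i => ev (σ i)) p := by
    intro p
    rw [hev, MvPolynomial.aeval_bind₁]
  have hscale : ∀ (p : MvPolynomial (Fin 3) ℂ) (m : ℕ), p.IsHomogeneous m →
      ev (MvPolynomial.bind₁ σ p) = ev (σ j) ^ m * MvPolynomial.aeval u p := by
    intro p m hp
    rw [hbind, hsu, aeval_scale hp]
  have hfu : MvPolynomial.aeval u f = 0 := by
    rw [hscale f n hf] at hF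
    exact (mul_eq_zero.mp hF).resolve_left (pow_ne_zero _ hs)
  have hτu : ∀ i, ev (σ j) ^ e * MvPolynomial.aeval u (τ i) = ev h * ev (MvPolynomial.X i) := by
    intro i
    rw [← hscale (τ i) e (hτ i), hστ, map_mul]
  have hX0 : ev (MvPolynomial.X 0) = 1 := by rw [hev, MvPolynomial.aeval_X]; rfl
  have hX1 : ev (MvPolynomial.X 1) = α := by rw [hev, MvPolynomial.aeval_X]; rfl
  have hX2 : ev (MvPolynomial.X 2) = b := by rw [hev, MvPolynomial.aeval_X]; rfl
  have hτ0 : MvPolynomial.aeval u (τ 0) ≠ 0 := by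
    intro h0
    have h1 := hτu 0
    rw [h0, mul_zero, hX0, mul_one] at h1
    exact hh h1.symm
  have hse : ev (σ j) ^ e ≠ 0 := pow_ne_zero _ hs
  have hατ : α = MvPolynomial.aeval u (τ 1) / MvPolynomial.aeval u (τ 0) := by
    have h0 := hτu 0
    have h1 := hτu 1
    rw [hX0, mul_one] at h0
    rw [hX1] at h1
    rw [eq_div_iff hτ0]
    apply mul_left_cancel₀ hse
    rw [h1, ← h0]; ring
  have hbτ : b = MvPolynomial.aeval u (τ 2) / MvPolynomial.aeval u (τ 0) := by
    have h0 := hτu 0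
    have h1 := hτu 2
    rw [hX0, mul_one] at h0
    rw [hX2] at h1
    rw [eq_div_iff hτ0]
    apply mul_left_cancel₀ hse
    rw [h1, ← h0]; ring
  have hCL : ∀ c : ℂ, algebraMap ℂ K c ∈ (algebraMap (RatFunc ℂ) K).range := by
    intro c
    rw [IsScalarTower.algebraMap_apply ℂ ℂ[X] K, IsScalarTower.algebraMap_apply ℂ[X] (RatFunc ℂ) K]
    exact ⟨_, rfl⟩
  -- some coordinate is not in the rational subfield
  obtain ⟨i, hi⟩ : ∃ i, u i ∉ (algebraMap (RatFunc ℂ) K).range := by
    by_contra hcon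
    push Not at hcon
    have h1 : ∀ p : MvPolynomial (Fin 3) ℂ,
        MvPolynomial.aeval u p ∈ (algebraMap (RatFunc ℂ) K).range := by
      intro p
      induction p using MvPolynomial.induction_on with
      | C c => rw [MvPolynomial.aeval_C]; exact hCL c
      | add p q hp hq => rw [map_add]; exact add_mem hp hq
      | mul_X p i hp => rw [map_mul, MvPolynomial.aeval_X]; exact mul_mem hp (hcon i)
    apply hbL
    rw [hbτ]
    obtain ⟨x, hx⟩ := h1 (τ 2)
    obtain ⟨y, hy⟩ := h1 (τ 0)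
    exact ⟨x / y, by rw [map_div₀, hx, hy]⟩
  have hij : i ≠ j := by
    rintro rfl
    apply hi
    rw [huj]
    exact one_mem _
  obtain ⟨k, hk⟩ : ∃ k : Fin 3, ∀ l, l = j ∨ l = i ∨ l = k := by
    revert hij
    generalize i = i'
    generalize j = j'
    revert i' j'
    decide
  have htr : Transcendental ℂ (u i) := transc hi hCL
  have hgne := sub3_ne hf0 hf hij hk
  have hgdeg : (MvPolynomial.aeval (sub3 j i) f : ℂ[X][X]).natDegree ≤ d := by
    have h1 := natDegree_sub3 f hf.totalDegree_le j i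
    exact h1.trans hn
  have hcomp : ∀ p : MvPolynomial (Fin 3) ℂ,
      aevalAeval (u i) (u k) (MvPolynomial.aeval (sub3 j i) p) = MvPolynomial.aeval u p := by
    intro p
    have h2 : (aevalAeval (u i) (u k)).comp (MvPolynomial.aeval (sub3 j i))
        = (MvPolynomial.aeval u : MvPolynomial (Fin 3) ℂ →ₐ[ℂ] K) := by
      apply MvPolynomial.algHom_ext
      intro l
      rw [AlgHom.comp_apply, MvPolynomial.aeval_X, MvPolynomial.aeval_X]
      unfold sub3
      split_ifs with h3 h4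
      · rw [h3, huj, map_one]
      · rw [h4, aevalAeval_X]
      · rw [aevalAeval_Y]
        rcases hk l with h | h | h
        · exact absurd h h3
        · exact absurd h h4
        · rw [h]
    rw [← h2]; rfl
  have hαmem : α ∈ IntermediateField.adjoin ℂ {u i, u k} := by
    have hul : ∀ l, u l ∈ IntermediateField.adjoin ℂ {u i, u k} := by
      intro l
      rcases hk l with h | h | h
      · rw [h, huj]; exact one_mem _
      · rw [h]; exact IntermediateField.subset_adjoin _ _ (by simp)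
      · rw [h]; exact IntermediateField.subset_adjoin _ _ (by simp)
    have h1 : ∀ p : MvPolynomial (Fin 3) ℂ,
        MvPolynomial.aeval u p ∈ IntermediateField.adjoin ℂ {u i, u k} := by
      intro p
      induction p using MvPolynomial.induction_on with
      | C c => rw [MvPolynomial.aeval_C]; exact IntermediateField.algebraMap_mem _ _
      | add p q hp hq => rw [map_add]; exact add_mem hp hq
      | mul_X p l hp => rw [map_mul, MvPolynomial.aeval_X]; exact mul_mem hp (hul l)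
    rw [hατ]
    exact div_mem (h1 _) (h1 _)
  obtain ⟨P, hP0, hPd, hPw⟩ := exists_rel htr hgne hgdeg (by rw [hcomp, hfu]) hαmem
  have hQ0 : Bivariate.swap P ≠ 0 := by
    intro h0
    exact hP0 ((map_eq_zero_iff _ (Bivariate.swap (R := ℂ)).injective).mp h0)
  have hQw : aeval (u i) (Bivariate.swap P) = 0 := by
    have h1 : aevalAeval α (u i) (Bivariate.swap P) = 0 := by
      rw [Bivariate.aevalAeval_swap, hPw]
    rw [aevalAeval_eval₂] at h1
    rw [aeval_def, ← h1]
    congr 1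
    ext x
    · simp only [RingHom.comp_apply]
      change algebraMap ℂ[X] K (C x) = aeval α (C x)
      rw [aeval_C, IsScalarTower.algebraMap_apply ℂ ℂ[X] K]
      rfl
    · change algebraMap ℂ[X] K X = aeval α X
      rw [aeval_X]
  -- common denominators
  obtain ⟨y, z, hyz⟩ := hspan (u i)
  have hz : z ≠ 0 := by
    rintro rfl
    apply hi
    rw [hyz, map_zero, zero_mul, add_zero]
    exact ⟨_, rfl⟩
  have hyd : algebraMap ℂ[X] (RatFunc ℂ) y.denom ≠ 0 := by
    intro h0
    exact y.denom_ne_zero ((map_eq_zero_iff _ (FaithfulSMul.algebraMap_injective ℂ[X] _)).mp h0)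
  have hzd : algebraMap ℂ[X] (RatFunc ℂ) z.denom ≠ 0 := by
    intro h0
    exact z.denom_ne_zero ((map_eq_zero_iff _ (FaithfulSMul.algebraMap_injective ℂ[X] _)).mp h0)
  have hfin := disc_bound (p := y.num * z.denom) (q := z.num * y.denom) (r := y.denom * z.denom)
    (w := u i) (b := b) hG hb hi (mul_ne_zero y.denom_ne_zero z.denom_ne_zero)
    (mul_ne_zero (RatFunc.num_ne_zero hz) y.denom_ne_zero) (by
      have hy' : y * algebraMap ℂ[X] (RatFunc ℂ) y.denom = algebraMap ℂ[X] (RatFunc ℂ) y.num :=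
        ((div_eq_iff hyd).mp (RatFunc.num_div_denom y)).symm
      have hz' : z * algebraMap ℂ[X] (RatFunc ℂ) z.denom = algebraMap ℂ[X] (RatFunc ℂ) z.num :=
        ((div_eq_iff hzd).mp (RatFunc.num_div_denom z)).symm
      have hy'' := congrArg (algebraMap (RatFunc ℂ) K) hy'
      have hz'' := congrArg (algebraMap (RatFunc ℂ) K) hz'
      rw [map_mul, ← IsScalarTower.algebraMap_apply, ← IsScalarTower.algebraMap_apply] at hy'' hz''
      rw [hyz, map_mul, map_mul, map_mul, ← hy'', ← hz'']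
      ring) hQ0 hQw (d := d) (by rw [Bivariate.swap_swap_apply]; exact hPd)
  omega

end

end Pool.Agent.H51.Cre
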