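import Pool.Agent.H51.Cre.D

set_option linter.all false

namespace Pool.Agent.H51.Cre

open Polynomial

noncomputable section

theorem irred_quad {G : ℂ[X]} (hG : Squarefree G) (hpos : 0 < G.natDegree) :
    Irreducible (X ^ 2 - C (algebraMap ℂ[X] (RatFunc ℂ) G) : (RatFunc ℂ)[X]) := by
  have hdeg : (X ^ 2 - C (algebraMap ℂ[X] (RatFunc ℂ) G) : (RatFunc ℂ)[X]).natDegree = 2 :=
    natDegree_X_pow_sub_C
  have hmon : (X ^ 2 - C (algebraMap ℂ[X] (RatFunc ℂ) G) : (RatFunc ℂ)[X]).Monic :=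
    monic_X_pow_sub_C _ two_ne_zero
  refine (hmon.irreducible_iff_roots_eq_zero_of_degree_le_three (by omega) (by omega)).mpr ?_
  rw [Multiset.eq_zero_iff_forall_notMem]
  intro x hx
  rw [mem_roots hmon.ne_zero, IsRoot.def, eval_sub, eval_pow, eval_X, eval_C, sub_eq_zero] at hx
  have hint : IsIntegral ℂ[X] (x ^ 2) := by
    rw [hx]; exact isIntegral_algebraMap
  obtain ⟨y, hy⟩ := IsIntegrallyClosed.exists_algebraMap_eq_of_isIntegral_pow
    (R := ℂ[X]) (K := RatFunc ℂ) (two_pos) hint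
  rw [← hy, ← map_pow] at hx
  have h1 : y ^ 2 = G := FaithfulSMul.algebraMap_injective ℂ[X] (RatFunc ℂ) hx
  have h2 : IsUnit y := hG y (by rw [← sq, h1])
  have h3 : G.natDegree = 0 := by
    rw [← h1, natDegree_pow, natDegree_eq_zero_of_isUnit h2]
  omega

theorem core' {G : ℂ[X]} (hG : Squarefree G) {d : ℕ} (hdG : 2 * d < G.natDegree)
    {σ τ : Fin 3 → MvPolynomial (Fin 3) ℂ} {e : ℕ} (hτ : ∀ i, (τ i).IsHomogeneous e)
    {h : MvPolynomial (Fin 3) ℂ} (hστ : ∀ i, MvPolynomial.bind₁ σ (τ i) = h * MvPolynomial.X i)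
    {f : MvPolynomial (Fin 3) ℂ} {n : ℕ} (hf : f.IsHomogeneous n) (hn : n ≤ d) (hf0 : f ≠ 0)
    {g0 : MvPolynomial (Fin 3) ℂ}
    (hvan : ∀ x y : ℂ, y ^ 2 = G.eval x →
      MvPolynomial.aeval ![1, x, y] (g0 * MvPolynomial.bind₁ σ f) = 0)
    {x0 y0 : ℂ} (hxy : y0 ^ 2 = G.eval x0) (hg0 : MvPolynomial.aeval ![1, x0, y0] g0 ≠ 0)
    (hh0 : MvPolynomial.aeval ![1, x0, y0] h ≠ 0) {j : Fin 3}
    (hs0 : MvPolynomial.aeval ![1, x0, y0] (σ j) ≠ 0) : False := by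
  set q : (RatFunc ℂ)[X] := X ^ 2 - C (algebraMap ℂ[X] (RatFunc ℂ) G) with hq
  have hirr : Irreducible q := irred_quad hG (by omega)
  haveI : Fact (Irreducible q) := ⟨hirr⟩
  have hmon : q.Monic := monic_X_pow_sub_C _ two_ne_zero
  have hdeg : q.natDegree = 2 := natDegree_X_pow_sub_C
  have hroot : (AdjoinRoot.root q) ^ 2 = algebraMap ℂ[X] (AdjoinRoot q) G := by
    have h1 : AdjoinRoot.mk q (X ^ 2 - C (algebraMap ℂ[X] (RatFunc ℂ) G)) = 0 := AdjoinRoot.mk_self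
    simp only [map_sub, map_pow, AdjoinRoot.mk_X, AdjoinRoot.mk_C] at h1
    rw [sub_eq_zero] at h1
    rw [IsScalarTower.algebraMap_apply ℂ[X] (RatFunc ℂ) (AdjoinRoot q)]
    exact h1
  have hnot : AdjoinRoot.root q ∉ (algebraMap (RatFunc ℂ) (AdjoinRoot q)).range := by
    rintro ⟨x, hx⟩
    have h1 : AdjoinRoot.mk q (X - C x) = 0 := by
      rw [map_sub, AdjoinRoot.mk_X, AdjoinRoot.mk_C, ← hx]
      exact sub_self _
    rw [AdjoinRoot.mk_eq_zero] at h1
    have h2 := natDegree_le_of_dvd h1 (X_sub_C_ne_zero x)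
    rw [hdeg, natDegree_X_sub_C] at h2
    omega
  have hspan : ∀ x : AdjoinRoot q, ∃ y z : RatFunc ℂ,
      x = algebraMap _ (AdjoinRoot q) y + algebraMap _ (AdjoinRoot q) z * AdjoinRoot.root q := by
    intro x
    obtain ⟨p, rfl⟩ := AdjoinRoot.mk_surjective x
    have h1 : AdjoinRoot.mk q p = AdjoinRoot.mk q (p %ₘ q) := by
      rw [AdjoinRoot.mk_eq_mk]
      exact ⟨p /ₘ q, by
        have := modByMonic_add_div p q
        linear_combination -this⟩
    have h2 : (p %ₘ q).natDegree ≤ 1 := by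
      have := natDegree_modByMonic_lt p hmon (by
        intro h0
        rw [h0, natDegree_one] at hdeg
        omega)
      omega
    obtain ⟨z, y, hzy⟩ := exists_eq_X_add_C_of_natDegree_le_one h2
    refine ⟨y, z, ?_⟩
    rw [h1, hzy, map_add, map_mul, AdjoinRoot.mk_X, AdjoinRoot.mk_C, AdjoinRoot.mk_C, add_comm]
    rfl
  exact core (K := AdjoinRoot q) hG hdG hroot hnot hspan hτ hστ hf hn hf0 hvan hxy hg0 hh0 hs0

end

end Pool.Agent.H51.Cre
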